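import Mathlib

/-!
Tools for families of squarefree congruent numbers: the gap principle for `X ^ 2 + 1 = D z ^ 2`, simple zeros of
polynomials modulo primes and the Chinese remainder theorem, counting of squarefree parts.  (helper496)
-/

set_option autoImplicit false

namespace Pool.Agent.Run7.h496.CG

open Finset Polynomial

/-- the gap principle -/
lemma gap (D X₁ X₂ z₁ z₂ : ℕ) (hX : 0 < X₁) (hlt : X₁ < X₂) (h1 : X₁ ^ 2 + 1 = D * z₁ ^ 2)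
    (h2 : X₂ ^ 2 + 1 = D * z₂ ^ 2) : 2 * X₁ < X₂ := by
  have hD : 2 ≤ D := by
    by_contra hcon
    have : D = 0 ∨ D = 1 := by omega
    rcases this with rfl | rfl
    · omega
    · rw [one_mul] at h1
      have h3 : X₁ < z₁ := by
        by_contra hc
        rw [not_lt] at hc
        nlinarith
      nlinarith
  have hz : z₁ < z₂ := by
    by_contra hcon
    rw [not_lt] at hcon
    have h3 : D * z₂ ^ 2 ≤ D * z₁ ^ 2 := Nat.mul_le_mul_left _ (Nat.pow_le_pow_left hcon 2)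
    nlinarith
  have h4 : z₂ * X₁ < z₁ * X₂ := by
    by_contra hcon
    rw [not_lt] at hcon
    have h5 : (z₁ * X₂) ^ 2 ≤ (z₂ * X₁) ^ 2 := Nat.pow_le_pow_left hcon 2
    have h6 : (z₁ * X₂) ^ 2 + z₁ ^ 2 = (z₂ * X₁) ^ 2 + z₂ ^ 2 := by
      calc (z₁ * X₂) ^ 2 + z₁ ^ 2 = z₁ ^ 2 * (X₂ ^ 2 + 1) := by ring
        _ = z₁ ^ 2 * (D * z₂ ^ 2) := by rw [h2]
        _ = z₂ ^ 2 * (D * z₁ ^ 2) := by ring
        _ = z₂ ^ 2 * (X₁ ^ 2 + 1) := by rw [h1]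
        _ = _ := by ring
    have h7 : z₁ ^ 2 < z₂ ^ 2 := Nat.pow_lt_pow_left hz (by norm_num)
    omega
  have h6 : (z₁ * X₂) ^ 2 + z₁ ^ 2 = (z₂ * X₁) ^ 2 + z₂ ^ 2 := by
    calc (z₁ * X₂) ^ 2 + z₁ ^ 2 = z₁ ^ 2 * (X₂ ^ 2 + 1) := by ring
      _ = z₁ ^ 2 * (D * z₂ ^ 2) := by rw [h2]
      _ = z₂ ^ 2 * (D * z₁ ^ 2) := by ring
      _ = z₂ ^ 2 * (X₁ ^ 2 + 1) := by rw [h1]
      _ = _ := by ring
  have h8 : (z₂ * X₁ + 1) ^ 2 ≤ (z₁ * X₂) ^ 2 := Nat.pow_le_pow_left h4 2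
  have h9 : 2 * (z₂ * X₁) < z₂ ^ 2 := by nlinarith
  have h10 : 2 * X₁ < z₂ := by
    by_contra hcon
    rw [not_lt] at hcon
    nlinarith
  have h11 : z₂ ≤ X₂ := by
    by_contra hcon
    rw [not_le] at hcon
    have : 2 * z₂ ^ 2 ≤ X₂ ^ 2 + 1 := by
      rw [h2]
      exact Nat.mul_le_mul_right _ hD
    nlinarith
  omega

/-- numbers with `X ^ 2 + 1 = D z ^ 2`, one `D`, have different binary logarithms -/
lemma log_ne (D X₁ X₂ z₁ z₂ : ℕ) (hX1 : 0 < X₁) (hX2 : 0 < X₂) (hne : X₁ ≠ X₂) (h1 : X₁ ^ 2 + 1 = D * z₁ ^ 2)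
    (h2 : X₂ ^ 2 + 1 = D * z₂ ^ 2) : Nat.log 2 X₁ ≠ Nat.log 2 X₂ := by
  have key : ∀ Y₁ Y₂ w₁ w₂ : ℕ, 0 < Y₁ → Y₁ < Y₂ → Y₁ ^ 2 + 1 = D * w₁ ^ 2 → Y₂ ^ 2 + 1 = D * w₂ ^ 2 →
      Nat.log 2 Y₁ < Nat.log 2 Y₂ := by
    intro Y₁ Y₂ w₁ w₂ hY hlt h1 h2
    have h3 := gap D Y₁ Y₂ w₁ w₂ hY hlt h1 h2
    have h4 : Nat.log 2 (2 * Y₁) ≤ Nat.log 2 Y₂ := Nat.log_mono_right h3.le
    rw [mul_comm, Nat.log_mul_base (by norm_num) hY.ne'] at h4
    omega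
  rcases lt_or_gt_of_ne hne with h | h
  · exact (key _ _ _ _ hX1 h h1 h2).ne
  · exact (key _ _ _ _ hX2 h h2 h1).ne'

/-- a simple zero modulo `p` -/
lemma simple_zero (F : ℤ[X]) (p : ℕ) (hp : p.Prime) (x : ℤ) (h0 : (p : ℤ) ∣ F.eval x)
    (h1 : ¬ (p : ℤ) ∣ F.derivative.eval x) : ∃ y : ℤ, (p : ℤ) ∣ F.eval y ∧ ¬ (p : ℤ) ^ 2 ∣ F.eval y := by
  by_cases h2 : (p : ℤ) ^ 2 ∣ F.eval x
  · refine ⟨x + p, ?_, fun h3 => h1 ?_⟩
    · obtain ⟨k, hk⟩ := Polynomial.binomExpansion F x (p : ℤ)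
      rw [hk]
      exact dvd_add (dvd_add h0 (Dvd.intro_left _ rfl)) ⟨k * p, by ring⟩
    · obtain ⟨k, hk⟩ := Polynomial.binomExpansion F x (p : ℤ)
      rw [hk] at h3
      have h4 : (p : ℤ) ^ 2 ∣ F.derivative.eval x * p := by
        have h5 : F.derivative.eval x * (p : ℤ) =
            (F.eval x + F.derivative.eval x * p + k * p ^ 2) - F.eval x - k * p ^ 2 := by ring
        rw [h5]
        exact dvd_sub (dvd_sub h3 h2) (Dvd.intro_left _ rfl)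
      rw [sq] at h4
      exact Int.dvd_of_mul_dvd_mul_right (by exact_mod_cast hp.ne_zero) h4
  · exact ⟨x, h0, h2⟩

/-- values of a polynomial at congruent numbers -/
lemma eval_modEq (F : ℤ[X]) (x y : ℤ) (m : ℤ) (h : m ∣ x - y) : m ∣ F.eval x - F.eval y :=
  h.trans (Polynomial.sub_dvd_eval_sub x y F)

/-- Chinese remainder theorem -/
lemma crt (F : ℤ[X]) (B Q r : ℕ) (hB : Squarefree B) (hQ : 0 < Q) (hBQ : Q.Coprime B)
    (h : ∀ p : ℕ, p.Prime → p ∣ B → ∃ y : ℤ, (p : ℤ) ∣ F.eval y ∧ ¬ (p : ℤ) ^ 2 ∣ F.eval y) :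
    ∃ x₀ : ℕ, 0 < x₀ ∧ x₀ ≤ Q * B ^ 2 ∧ x₀ ≡ r [MOD Q] ∧ ∀ x : ℕ, x ≡ x₀ [MOD B ^ 2] → ∀ p : ℕ, p.Prime → p ∣ B →
      (p : ℤ) ∣ F.eval (x : ℤ) ∧ ¬ (p : ℤ) ^ 2 ∣ F.eval (x : ℤ) := by
  have hB0 : 0 < B := Nat.pos_of_ne_zero hB.ne_zero
  choose! y hy using h
  have hs : ∀ p ∈ B.primeFactors, (fun p : ℕ => p ^ 2) p ≠ 0 := fun p hp =>
    pow_ne_zero 2 (Nat.prime_of_mem_primeFactors hp).ne_zero
  have hpp : Set.Pairwise (B.primeFactors : Set ℕ) (Function.onFun Nat.Coprime (fun p : ℕ => p ^ 2)) := by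
    intro p hp q hq hpq
    have h1 := Nat.prime_of_mem_primeFactors (Finset.mem_coe.1 hp)
    have h2 := Nat.prime_of_mem_primeFactors (Finset.mem_coe.1 hq)
    exact Nat.Coprime.pow 2 2 ((Nat.coprime_primes h1 h2).2 hpq)
  obtain ⟨x₁, hx₁⟩ := Nat.chineseRemainderOfFinset (fun p : ℕ => (y p % ((p : ℤ) ^ 2)).toNat) (fun p : ℕ => p ^ 2)
    B.primeFactors hs hpp
  have hcop : Q.Coprime (B ^ 2) := Nat.Coprime.pow_right 2 hBQ
  obtain ⟨x₂, hx₂a, hx₂b⟩ := Nat.chineseRemainder hcop r x₁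
  have hQB : 0 < Q * B ^ 2 := by positivity
  -- a representative in `[1, Q B ^ 2]`
  obtain ⟨x₀, hx0, hx0le, hx0m⟩ : ∃ x₀ : ℕ, 0 < x₀ ∧ x₀ ≤ Q * B ^ 2 ∧ x₀ ≡ x₂ [MOD (Q * B ^ 2)] := by
    by_cases h0 : x₂ % (Q * B ^ 2) = 0
    · refine ⟨Q * B ^ 2, hQB, le_rfl, ?_⟩
      unfold Nat.ModEq
      rw [Nat.mod_self, h0]
    · exact ⟨x₂ % (Q * B ^ 2), Nat.pos_of_ne_zero h0, (Nat.mod_lt _ hQB).le, Nat.mod_modEq _ _⟩
  refine ⟨x₀, hx0, hx0le, (hx0m.of_mul_right _).trans hx₂a, ?_⟩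
  intro x hx p hp hpB
  have hmem : p ∈ B.primeFactors := Nat.mem_primeFactors.2 ⟨hp, hpB, hB.ne_zero⟩
  have h1 : x ≡ x₁ [MOD B ^ 2] := (hx.trans (hx0m.of_mul_left _)).trans hx₂b
  have h2 : x ≡ x₁ [MOD p ^ 2] := h1.of_dvd (pow_dvd_pow_of_dvd hpB 2)
  have h3 : x₁ ≡ (y p % ((p : ℤ) ^ 2)).toNat [MOD p ^ 2] := hx₁ p hmem
  have h4 := h2.trans h3
  have hp2 : (0 : ℤ) < (p : ℤ) ^ 2 := by
    have : (0 : ℤ) < p := by exact_mod_cast hp.pos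
    positivity
  have h5 : ((p : ℤ) ^ 2) ∣ (x : ℤ) - y p := by
    have h6 : ((x : ℕ) : ℤ) ≡ (((y p % ((p : ℤ) ^ 2)).toNat : ℕ) : ℤ) [ZMOD ((p ^ 2 : ℕ) : ℤ)] :=
      (Int.natCast_modEq_iff).2 h4
    rw [Int.toNat_of_nonneg (Int.emod_nonneg _ hp2.ne')] at h6
    push_cast at h6
    have h7 : (x : ℤ) ≡ y p [ZMOD (p : ℤ) ^ 2] := h6.trans (Int.mod_modEq _ _)
    exact (Int.modEq_iff_dvd.1 h7.symm)
  have h8 := eval_modEq F x (y p) _ h5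
  obtain ⟨g1, g2⟩ := hy p hp hpB
  refine ⟨?_, fun h9 => g2 ?_⟩
  · have h10 : (p : ℤ) ∣ F.eval (x : ℤ) - F.eval (y p) := (dvd_pow_self (p : ℤ) (by norm_num)).trans h8
    have := dvd_add h10 g1
    rwa [sub_add_cancel] at this
  · have := dvd_sub h9 h8
    rwa [sub_sub_cancel] at this

/-- simple prime factors divide the squarefree part -/
lemma dvd_squarefree_part (B V n z : ℕ) (hB : Squarefree B) (hV : z ^ 2 * n = V)
    (h : ∀ p : ℕ, p.Prime → p ∣ B → p ∣ V ∧ ¬ p ^ 2 ∣ V) : B ∣ n := by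
  rw [← Nat.prod_primeFactors_of_squarefree hB]
  refine Finset.prod_primes_dvd n (fun p hp => (Nat.prime_of_mem_primeFactors hp).prime) fun p hp => ?_
  have hpp := Nat.prime_of_mem_primeFactors hp
  obtain ⟨h1, h2⟩ := h p hpp (Nat.dvd_of_mem_primeFactors hp)
  rw [← hV] at h1 h2
  rcases hpp.dvd_mul.1 h1 with h3 | h3
  · exact absurd (Dvd.dvd.mul_right (pow_dvd_pow_of_dvd (hpp.dvd_of_dvd_pow h3) 2) n) h2
  · exact h3

/-- a number whose product with a square is `1` modulo `M` is a square modulo `M` -/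
lemma square_mod (M V n z : ℕ) (hV : z ^ 2 * n = V) (h : V ≡ 1 [MOD M]) : n ≡ (n * z) ^ 2 [MOD M] := by
  have h1 : (n * z) ^ 2 = n * V := by rw [← hV]; ring
  rw [h1]
  have h2 := (Nat.ModEq.mul_left n h).symm
  rwa [mul_one] at h2

/-- counting: if `X(x) ^ 2 + 1 = d f(x) z ^ 2`, with `X` strictly increasing, then `f` takes many different values
in an arithmetic progression -/
lemma count (X f : ℕ → ℕ) (d R x₀ J L : ℕ) (hR : 0 < R) (S : Set ℕ) (hS : S.Finite)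
    (hX0 : ∀ j < J, 0 < X (x₀ + j * R)) (hXL : ∀ j < J, X (x₀ + j * R) ≤ L)
    (hmono : ∀ x y, x < y → X x < X y)
    (hf : ∀ j < J, ∃ z, X (x₀ + j * R) ^ 2 + 1 = d * f (x₀ + j * R) * z ^ 2)
    (hfS : ∀ j < J, f (x₀ + j * R) ∈ S) : J ≤ (Nat.log 2 L + 1) * S.ncard := by
  classical
  have h1 : (range J).card ≤ (Nat.log 2 L + 1) * ((range J).image fun j => f (x₀ + j * R)).card := by
    refine card_le_mul_card_image _ _ fun a _ => ?_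
    have h2 : ((range J).filter fun j => f (x₀ + j * R) = a).card ≤ (range (Nat.log 2 L + 1)).card := by
      refine card_le_card_of_injOn (fun j => Nat.log 2 (X (x₀ + j * R))) ?_ ?_
      · intro j hj
        rw [mem_coe, mem_filter, mem_range] at hj
        rw [mem_coe, mem_range]
        exact Nat.lt_succ_of_le (Nat.log_mono_right (hXL j hj.1))
      · intro j hj i hi hji
        rw [mem_coe, mem_filter, mem_range] at hj hi
        by_contra hne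
        obtain ⟨z₁, h4⟩ := hf j hj.1
        obtain ⟨z₂, h5⟩ := hf i hi.1
        rw [hj.2] at h4
        rw [hi.2] at h5
        refine log_ne _ _ _ z₁ z₂ (hX0 j hj.1) (hX0 i hi.1) ?_ h4 h5 hji
        intro h6
        rcases lt_or_gt_of_ne hne with h7 | h7
        · have := hmono (x₀ + j * R) (x₀ + i * R) (by nlinarith)
          omega
        · have := hmono (x₀ + i * R) (x₀ + j * R) (by nlinarith)
          omega
    rwa [card_range] at h2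
  rw [card_range] at h1
  refine h1.trans (Nat.mul_le_mul_left _ ?_)
  rw [← Set.ncard_coe_finset]
  refine Set.ncard_le_ncard ?_ hS
  intro a ha
  rw [mem_coe, mem_image] at ha
  obtain ⟨j, hj, rfl⟩ := ha
  exact hfS j (mem_range.1 hj)

end Pool.Agent.Run7.h496.CG
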