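import Pool.Agent.Run7.h496.CG.Split

/-!
Congruent numbers all of whose odd prime factors are `1` modulo `2 ^ k`: squarefree parts of `(x ^ K + 1) / 2` and of
`2 (x ^ K + 1)`, `K = 2 ^ (k - 1)`.  (helper496)
-/

set_option autoImplicit false

namespace Pool.Agent.Run7.h496.CG

open Finset Polynomial

/-- `u ^ 4 + 1 = 2 n w ^ 2` with odd `u > 1`: the number `n` is congruent -/
lemma one_sol (u n w : ℕ) (hu : 1 < u) (hodd : u % 2 = 1) (h : w ^ 2 * n * 2 = u ^ 4 + 1) : IntSol n := by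
  have hw : 0 < w := by
    rcases Nat.eq_zero_or_pos w with rfl | h'
    · simp at h
    · exact h'
  set D : ℤ := u ^ 4 + 1 with hD
  set E : ℤ := u ^ 4 - 1 with hE
  have hmD : (w : ℤ) ^ 2 * n * 2 = D := by
    rw [hD]
    exact_mod_cast h
  have huz : (1 : ℤ) < u := by exact_mod_cast hu
  have hDpos : 0 < D := by positivity
  have hEpos : 0 < E := by
    have : (1 : ℤ) < (u : ℤ) ^ 4 := one_lt_pow₀ huz (by norm_num)
    linarith
  have hTne : E ^ 2 - 4 * u ^ 2 * D ≠ 0 := by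
    intro h0
    obtain ⟨a, ha⟩ : ∃ a : ℤ, (u : ℤ) = 2 * a + 1 := ⟨u / 2, by omega⟩
    have h1 : E = 16 * ((a * (a + 1) / 2) * (2 * (a * (a + 1)) + 1)) ∧ True := by
      refine ⟨?_, trivial⟩
      have h2 : 2 ∣ a * (a + 1) := even_iff_two_dvd.1 (Int.even_mul_succ_self a)
      obtain ⟨b, hb⟩ := h2
      rw [hb, Int.mul_ediv_cancel_left _ (by norm_num), hE, ha]
      have h3 : a * a = 2 * b - a := by linarith
      have h4 : (2 * a + 1) ^ 4 - 1 = 8 * (a * (a + 1)) * (2 * (a * (a + 1)) + 1) := by ring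
      rw [h4, hb]
      ring
    obtain ⟨h1, -⟩ := h1
    generalize (a * (a + 1) / 2) * (2 * (a * (a + 1)) + 1) = e at h1
    have h5 : D = 16 * e + 2 := by
      have : D = E + 2 := by rw [hD, hE]; ring
      rw [this, h1]
    rw [h1, h5, ha] at h0
    have h6 : 8 * (2 * (16 * e ^ 2 - 2 * (a ^ 2 + a) * (8 * e + 1) - 4 * e) - 1) = 0 := by
      rw [← h0]
      ring
    generalize 16 * e ^ 2 - 2 * (a ^ 2 + a) * (8 * e + 1) - 4 * e = w at h6
    omega
  refine ⟨(D ^ 2 + 4 * u ^ 4).natAbs, w * (4 * u * E.natAbs), (E ^ 2 + 4 * u ^ 2 * D).natAbs,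
    (E ^ 2 - 4 * u ^ 2 * D).natAbs, ?_, ?_, ?_, ?_, ?_, ?_⟩
  · exact Int.natAbs_pos.2 (by positivity)
  · have := Int.natAbs_pos.2 hEpos.ne'
    positivity
  · exact Int.natAbs_pos.2 (by positivity)
  · exact Int.natAbs_pos.2 hTne
  · zify
    rw [sq_abs, sq_abs, mul_pow (w : ℤ), mul_pow (4 * (u : ℤ)), sq_abs]
    have h1 : (n : ℤ) * (w ^ 2 * ((4 * u) ^ 2 * E ^ 2)) = 8 * D * u ^ 2 * E ^ 2 := by
      rw [← hmD]
      ring
    rw [h1, hE, hD]
    ring
  · zify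
    rw [sq_abs, sq_abs, mul_pow (w : ℤ), mul_pow (4 * (u : ℤ)), sq_abs]
    have h1 : (n : ℤ) * (w ^ 2 * ((4 * u) ^ 2 * E ^ 2)) = 8 * D * u ^ 2 * E ^ 2 := by
      rw [← hmD]
      ring
    rw [h1, hE, hD]
    ring

/-- odd prime factors of `x ^ (2 ^ (k - 1)) + 1` -/
lemma one_primes (k x p : ℕ) (hk : 1 ≤ k) (hp : p.Prime) (hp2 : p ≠ 2) (h : p ∣ x ^ (2 ^ (k - 1)) + 1) :
    p ≡ 1 [MOD 2 ^ k] := by
  have := Fact.mk hp
  have h0 : (x : ZMod p) ^ (2 ^ (k - 1)) = -1 := by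
    have := (ZMod.natCast_eq_zero_iff (x ^ (2 ^ (k - 1)) + 1) p).2 h
    push_cast at this
    linear_combination this
  have h20 : (2 : ZMod p) ≠ 0 := by
    intro h5
    have h6 : ((2 : ℕ) : ZMod p) = 0 := by exact_mod_cast h5
    have := (ZMod.natCast_eq_zero_iff 2 p).1 h6
    exact hp2 ((Nat.prime_dvd_prime_iff_eq hp Nat.prime_two).1 this)
  have hx0 : (x : ZMod p) ≠ 0 := by
    intro h5
    rw [h5, zero_pow (by positivity)] at h0
    have : (1 : ZMod p) = 0 := by linear_combination h0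
    exact one_ne_zero this
  have hord : orderOf (x : ZMod p) = 2 ^ (k - 1 + 1) := by
    refine orderOf_eq_prime_pow ?_ ?_
    · rw [h0]
      intro h5
      apply h20
      linear_combination -h5
    · rw [pow_succ 2, pow_mul, h0]
      ring
  have h1 := ZMod.orderOf_dvd_card_sub_one hx0
  rw [hord, Nat.sub_add_cancel hk] at h1
  exact ((Nat.modEq_iff_dvd' hp.one_lt.le).2 h1).symm

/-- every prime `1` modulo `2 ^ k` divides some `x ^ (2 ^ (k - 1)) + 1`, as a simple zero -/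
lemma one_zero (k p : ℕ) (hk : 1 ≤ k) (hp : p.Prime) (h : p ≡ 1 [MOD 2 ^ k]) :
    ∃ y : ℤ, (p : ℤ) ∣ (X ^ (2 ^ (k - 1)) + 1 : ℤ[X]).eval y ∧
      ¬ (p : ℤ) ^ 2 ∣ (X ^ (2 ^ (k - 1)) + 1 : ℤ[X]).eval y := by
  have := Fact.mk hp
  have hdvd : 2 ^ k ∣ p - 1 := (Nat.modEq_iff_dvd' hp.one_lt.le).1 h.symm
  have hp2 : p ≠ 2 := by
    rintro rfl
    have h1 : 2 ∣ 2 ^ k := dvd_pow_self 2 (by omega)
    have := h1.trans hdvd
    omega
  have h20 : (2 : ZMod p) ≠ 0 := by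
    intro h5
    have h6 : ((2 : ℕ) : ZMod p) = 0 := by exact_mod_cast h5
    have := (ZMod.natCast_eq_zero_iff 2 p).1 h6
    exact hp2 ((Nat.prime_dvd_prime_iff_eq hp Nat.prime_two).1 this)
  have hcard : Fintype.card (ZMod p)ˣ = p - 1 := ZMod.card_units p
  have hnum := IsCyclic.card_orderOf_eq_totient (α := (ZMod p)ˣ) (d := 2 ^ k) (by rw [hcard]; exact hdvd)
  have hpos : 0 < Nat.totient (2 ^ k) := Nat.totient_pos.2 (by positivity)
  rw [← hnum, card_pos] at hpos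
  obtain ⟨g, hg⟩ := hpos
  rw [mem_filter] at hg
  have hK : 2 ^ k = 2 ^ (k - 1) * 2 := by
    rw [← pow_succ, Nat.sub_add_cancel hk]
  have hg1 : ((g : ZMod p) ^ (2 ^ (k - 1))) ^ 2 = 1 := by
    rw [← pow_mul, ← hK, ← hg.2, ← Units.val_pow_eq_pow_val, pow_orderOf_eq_one, Units.val_one]
  have hg2 : (g : ZMod p) ^ (2 ^ (k - 1)) ≠ 1 := by
    intro h5
    have h6 : g ^ (2 ^ (k - 1)) = 1 := by
      ext
      rw [Units.val_pow_eq_pow_val, h5, Units.val_one]
    have h7 := orderOf_dvd_of_pow_eq_one h6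
    rw [hg.2] at h7
    have h8 := Nat.le_of_dvd (by positivity) h7
    have h9 : 0 < 2 ^ (k - 1) := by positivity
    omega
  have hg3 : (g : ZMod p) ^ (2 ^ (k - 1)) = -1 := by
    have h10 : ((g : ZMod p) ^ (2 ^ (k - 1)) - 1) * ((g : ZMod p) ^ (2 ^ (k - 1)) + 1) = 0 := by
      linear_combination hg1
    rcases mul_eq_zero.1 h10 with h | h
    · exact absurd (by linear_combination h) hg2
    · linear_combination h
  obtain ⟨y, hy⟩ : ∃ y : ℤ, (y : ZMod p) = g := ZMod.intCast_surjective (g : ZMod p)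
  refine simple_zero _ p hp y ?_ ?_
  · rw [← ZMod.intCast_zmod_eq_zero_iff_dvd]
    simp only [eval_add, eval_one, eval_pow, eval_X]
    push_cast
    rw [hy, hg3]
    ring
  · rw [← ZMod.intCast_zmod_eq_zero_iff_dvd]
    simp only [derivative_add, derivative_one, derivative_X_pow, eval_mul,
      eval_C, eval_pow, eval_X, add_zero]
    push_cast
    rw [hy]
    refine mul_ne_zero (pow_ne_zero _ h20) (pow_ne_zero _ (Units.ne_zero g))

/-- the set of the squarefree congruent numbers `n ≤ N ^ K`, `B ∣ n`, all prime factors of `n` are `1` modulo `2 ^ k`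
and `n` is a square modulo `M` -/
def oneSet (k B M N : ℕ) : Set ℕ :=
  {n | n ≤ N ^ 2 ^ (k - 1) ∧ Squarefree n ∧ IntSol n ∧ B ∣ n ∧ (∀ p : ℕ, p.Prime → p ∣ n → p ≡ 1 [MOD 2 ^ k]) ∧
    ∃ y, n ≡ y ^ 2 [MOD M]}

lemma oneSet_finite (k B M N : ℕ) : (oneSet k B M N).Finite :=
  (Set.finite_Iic (N ^ 2 ^ (k - 1))).subset fun _ hn => hn.1

lemma log_pow_le (N e : ℕ) (he : 0 < e) : Nat.log 2 (N ^ e) + 1 ≤ e * (Nat.log 2 N + 1) := by
  rcases Nat.eq_zero_or_pos N with rfl | hN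
  · rw [zero_pow he.ne']
    simp
    exact he
  · have h1 : N < 2 ^ (Nat.log 2 N + 1) := Nat.lt_pow_succ_log_self (by norm_num) N
    have h2 : N ^ e < 2 ^ (e * (Nat.log 2 N + 1)) := by
      rw [mul_comm, pow_mul]
      exact Nat.pow_lt_pow_left h1 he.ne'
    exact Nat.log_lt_of_lt_pow (pow_ne_zero e hN.ne') h2

theorem one_main (k B M N : ℕ) (hk : 3 ≤ k) (hM : 0 < M) (hB : Squarefree B) (hMB : M.Coprime B)
    (hBp : ∀ p : ℕ, p.Prime → p ∣ B → p ≡ 1 [MOD 2 ^ k]) :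
    N / (2 * M * B ^ 2) ≤ 2 ^ (k - 2) * (Nat.log 2 N + 1) * (oneSet k B M N).ncard + 1 := by
  have hB0 : 0 < B := Nat.pos_of_ne_zero hB.ne_zero
  have h2B : Nat.Coprime 2 B := by
    refine (Nat.Prime.coprime_iff_not_dvd Nat.prime_two).2 fun h => ?_
    have h1 := (hBp 2 Nat.prime_two h).of_dvd (dvd_pow_self 2 (by omega))
    exact absurd h1 (by decide)
  obtain ⟨x₀, hx0, hx0le, hx0r, hx0B⟩ := crt (X ^ (2 ^ (k - 1)) + 1) B (2 * M) 1 hB (by positivity)
    (Nat.Coprime.mul_left h2B hMB) fun p hp hpB => one_zero k p (by omega) hp (hBp p hp hpB)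
  set R := 2 * M * B ^ 2 with hR
  have hRpos : 0 < R := by positivity
  choose m z hz hsq using fun x : ℕ => Nat.sq_mul_squarefree ((x ^ (2 ^ (k - 1)) + 1) / 2)
  have hxN : ∀ j < N / R - 1, (x₀ + R) + j * R ≤ N := by
    intro j hj
    calc (x₀ + R) + j * R ≤ (R + R) + j * R := by omega
      _ = (j + 2) * R := by ring
      _ ≤ N / R * R := Nat.mul_le_mul_right _ (by omega)
      _ ≤ N := Nat.div_mul_le_self _ _
  have hxmod : ∀ j, (x₀ + R) + j * R ≡ 1 [MOD 2 * M] := by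
    intro j
    refine Nat.ModEq.trans ?_ hx0r
    have : (x₀ + R) + j * R = x₀ + (2 * M) * (B ^ 2 * (j + 1)) := by rw [hR]; ring
    rw [this]
    exact Nat.add_modEq_left_iff.2 (Dvd.intro _ rfl)
  have hxodd : ∀ j, ((x₀ + R) + j * R) % 2 = 1 := fun j => by
    have := (hxmod j).of_mul_right M
    exact this
  have hx1 : ∀ j, 1 < (x₀ + R) + j * R := fun j => by omega
  have heven : ∀ x : ℕ, x % 2 = 1 → 2 * ((x ^ (2 ^ (k - 1)) + 1) / 2) = x ^ (2 ^ (k - 1)) + 1 := by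
    intro x hx
    refine Nat.mul_div_cancel' ?_
    have h1 : x ^ (2 ^ (k - 1)) % 2 = 1 := Nat.odd_iff.1 ((Nat.odd_iff.2 hx).pow)
    omega
  have hKK : 2 ^ (k - 1) = 2 ^ (k - 2) * 2 := by
    rw [← pow_succ]
    congr 1
    omega
  have hK4 : 2 ^ (k - 1) = 2 ^ (k - 3) * 4 := by
    have : (4 : ℕ) = 2 ^ 2 := by norm_num
    rw [this, ← pow_add]
    congr 1
    omega
  have h1 := count (fun x => x ^ (2 ^ (k - 2))) m 2 R (x₀ + R) (N / R - 1) (N ^ (2 ^ (k - 2))) hRpos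
    (oneSet k B M N) (oneSet_finite k B M N) ?_ ?_ ?_ ?_ ?_
  · have h2 : (Nat.log 2 (N ^ 2 ^ (k - 2)) + 1) * (oneSet k B M N).ncard ≤
        2 ^ (k - 2) * (Nat.log 2 N + 1) * (oneSet k B M N).ncard :=
      Nat.mul_le_mul_right _ (log_pow_le N _ (by positivity))
    omega
  · intro j _
    have := hx1 j
    positivity
  · intro j hj
    exact Nat.pow_le_pow_left (hxN j hj) _
  · intro x y hxy
    exact Nat.pow_lt_pow_left hxy (by positivity)
  · intro j _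
    refine ⟨z ((x₀ + R) + j * R), ?_⟩
    have h3 := hz ((x₀ + R) + j * R)
    have h4 := heven _ (hxodd j)
    rw [← h3] at h4
    calc (((x₀ + R) + j * R) ^ 2 ^ (k - 2)) ^ 2 + 1 = ((x₀ + R) + j * R) ^ 2 ^ (k - 1) + 1 := by
          rw [← pow_mul, ← hKK]
      _ = _ := by rw [← h4]; ring
  · intro j hj
    set x := (x₀ + R) + j * R with hx
    have hxle : x ≤ N := hxN j hj
    have hV := hz x
    have hE := heven x (hxodd j)
    have hVdvd : m x ∣ (x ^ 2 ^ (k - 1) + 1) / 2 := ⟨z x ^ 2, by rw [← hV]; ring⟩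
    have hxpos : 1 < x := hx1 j
    have hpow1 : 1 < x ^ 2 ^ (k - 1) := one_lt_pow₀ hxpos (by positivity)
    have hV1 : (x ^ 2 ^ (k - 1) + 1) / 2 ≡ 1 [MOD M] := by
      have h5 : 2 * ((x ^ 2 ^ (k - 1) + 1) / 2) ≡ 2 * 1 [MOD 2 * M] := by
        rw [hE]
        have h6 : x ^ 2 ^ (k - 1) ≡ 1 [MOD 2 * M] := by
          have := (hxmod j).pow (2 ^ (k - 1))
          rwa [one_pow] at this
        exact h6.add_right 1
      exact Nat.ModEq.mul_left_cancel' (by norm_num) h5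
    have hVodd : ((x ^ 2 ^ (k - 1) + 1) / 2) % 2 = 1 := by
      have h5 : x ^ 2 ^ (k - 1) % 4 = 1 := by
        rw [hKK, pow_mul]
        have h6 : x ^ 2 ^ (k - 2) % 2 = 1 := Nat.odd_iff.1 ((Nat.odd_iff.2 (hxodd j)).pow)
        generalize x ^ 2 ^ (k - 2) = v at h6
        have h7 : v % 4 = 1 ∨ v % 4 = 3 := by omega
        rcases h7 with h7 | h7 <;> rw [Nat.pow_mod, h7]
      omega
    refine ⟨?_, hsq x, ?_, ?_, ?_, ?_⟩
    · have h5 := Nat.le_of_dvd (by omega) hVdvd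
      have h6 : x ^ 2 ^ (k - 1) ≤ N ^ 2 ^ (k - 1) := Nat.pow_le_pow_left hxle _
      omega
    · refine one_sol (x ^ 2 ^ (k - 3)) (m x) (z x) (one_lt_pow₀ hxpos (by positivity)) ?_ ?_
      · exact Nat.odd_iff.1 ((Nat.odd_iff.2 (hxodd j)).pow)
      · rw [← pow_mul, ← hK4, ← hE, ← hV]
        ring
    · refine dvd_squarefree_part B _ (m x) (z x) hB hV fun p hp hpB => ?_
      have hp2 : p ≠ 2 := by
        rintro rfl
        have h1 := (hBp 2 Nat.prime_two hpB).of_dvd (dvd_pow_self 2 (by omega))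
        exact absurd h1 (by decide)
      have h6 := hx0B x ?_ p hp hpB
      · have h7 : ((X ^ (2 ^ (k - 1)) + 1 : ℤ[X])).eval (x : ℤ) = ((x ^ 2 ^ (k - 1) + 1 : ℕ) : ℤ) := by
          simp only [eval_add, eval_one, eval_pow, eval_X]
          push_cast
          ring
        rw [h7, ← hE] at h6
        have h8 : p ∣ 2 * ((x ^ 2 ^ (k - 1) + 1) / 2) := by exact_mod_cast h6.1
        refine ⟨(Nat.Coprime.dvd_of_dvd_mul_left ((Nat.coprime_primes hp Nat.prime_two).2 hp2) h8), fun h9 => h6.2 ?_⟩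
        have h10 : p ^ 2 ∣ 2 * ((x ^ 2 ^ (k - 1) + 1) / 2) := Dvd.dvd.mul_left h9 2
        exact_mod_cast h10
      · have h9 : x = x₀ + B ^ 2 * ((2 * M) * (j + 1)) := by rw [hx, hR]; ring
        rw [h9]
        exact Nat.add_modEq_left_iff.2 (Dvd.intro _ rfl)
    · intro p hp hpm
      have hp2 : p ≠ 2 := by
        rintro rfl
        have := (hpm.trans hVdvd)
        omega
      refine one_primes k x p (by omega) hp hp2 ?_
      rw [← hE]
      exact Dvd.dvd.mul_left (hpm.trans hVdvd) 2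
    · exact ⟨m x * z x, square_mod M _ (m x) (z x) hV hV1⟩

end Pool.Agent.Run7.h496.CG
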