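import Pool.Agent.Run7.h496.CG.One

/-!
The two counting theorems with a real bound `X`.  (helper496)
-/

set_option autoImplicit false

namespace Pool.Agent.Run7.h496.CG

open Finset

/-- `IntSol` and the rational right triangles -/
lemma triangle (n : ℕ) (hn : 0 < n) (h : IntSol n) : ∃ a b c : ℚ, 0 < a ∧ 0 < b ∧ 0 < c ∧ a ^ 2 + b ^ 2 = c ^ 2 ∧ (n : ℚ) = a * b / 2 := by
  obtain ⟨x, y, z, t, hx, hy, hz, ht, h1, h2⟩ := h
  have hyq : (0 : ℚ) < y := by exact_mod_cast hy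
  have hxq : (0 : ℚ) < x := by exact_mod_cast hx
  have hzq : (0 : ℚ) < z := by exact_mod_cast hz
  have htq : (0 : ℚ) < t := by exact_mod_cast ht
  have h1q : (x : ℚ) ^ 2 + n * y ^ 2 = z ^ 2 := by exact_mod_cast h1
  have h2q : (x : ℚ) ^ 2 = n * y ^ 2 + t ^ 2 := by exact_mod_cast h2
  have hnq : (0 : ℚ) < n := by exact_mod_cast hn
  have htz : (t : ℚ) < z := by
    by_contra hcon
    rw [not_lt] at hcon
    have h3 : (z : ℚ) ^ 2 ≤ t ^ 2 := pow_le_pow_left₀ hzq.le hcon 2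
    have h4 : (0 : ℚ) < n * y ^ 2 := by positivity
    linarith
  refine ⟨(z - t) / y, (z + t) / y, 2 * x / y, div_pos (by linarith) hyq, by positivity, by positivity, ?_, ?_⟩
  · field_simp
    linear_combination (-2 : ℚ) * h1q - 2 * h2q
  · field_simp
    linear_combination h1q - h2q

/-- an odd square modulo `8 M` is `1` modulo `8` -/
lemma one_eight (c m M y : ℕ) (hp : ∀ p : ℕ, p.Prime → p ∣ m → Splits c p) (hy : m ≡ y ^ 2 [MOD 8 * M]) :
    m % 8 = 1 := by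
  have h1 : m ≡ y ^ 2 [MOD 8] := hy.of_mul_right M
  have h2 : m % 2 = 1 := by
    by_contra hcon
    have h3 : 2 ∣ m := by omega
    have := (hp 2 Nat.prime_two h3).1
    omega
  have h3 : m % 8 = (y % 8) ^ 2 % 8 := by
    rw [← Nat.pow_mod]
    exact h1
  have h4 : y % 8 < 8 := Nat.mod_lt _ (by norm_num)
  generalize y % 8 = v at h3 h4
  interval_cases v <;> omega

lemma class_eight (c m n M y : ℕ) (hn : n = c * m) (hp : ∀ p : ℕ, p.Prime → p ∣ m → Splits c p)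
    (hy : m ≡ y ^ 2 [MOD 8 * M]) : n ≡ c [MOD 8] := by
  have h1 : m ≡ 1 [MOD 8] := one_eight c m M y hp hy
  rw [hn]
  have h2 := h1.mul_left c
  rwa [mul_one] at h2

lemma class_sixteen (c m n M y : ℕ) (hc : Even c) (hn : n = c * m) (hp : ∀ p : ℕ, p.Prime → p ∣ m → Splits c p)
    (hy : m ≡ y ^ 2 [MOD 8 * M]) : n ≡ c [MOD 16] := by
  have h1 : m ≡ 1 [MOD 8] := one_eight c m M y hp hy
  obtain ⟨d, rfl⟩ := hc
  rw [hn]
  have h2 : 2 * m ≡ 2 * 1 [MOD 2 * 8] := h1.mul_left' 2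
  have h3 := h2.mul_left d
  have e1 : (d + d) * m = d * (2 * m) := by ring
  have e2 : d + d = d * (2 * 1) := by ring
  rw [e1, e2]
  exact h3

lemma log_bound (N : ℕ) (hN : 8 ≤ N) : (Nat.log 2 N : ℝ) + 1 ≤ 2 * Real.log N := by
  have h1 : (Nat.log 2 N : ℝ) ≤ Real.logb (2 : ℕ) N := Real.natLog_le_logb N 2
  have h2 : Real.logb (2 : ℕ) N = Real.log N / Real.log 2 := by
    rw [Real.logb]
    norm_num
  have hl2 : (0.69 : ℝ) < Real.log 2 := by
    have := Real.log_two_gt_d9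
    linarith
  have h3 : 3 * Real.log 2 ≤ Real.log N := by
    have h4 : Real.log ((2 : ℝ) ^ 3) = 3 * Real.log 2 := by
      rw [Real.log_pow]
      norm_num
    rw [← h4]
    apply Real.log_le_log (by norm_num)
    have : (8 : ℝ) ≤ N := by exact_mod_cast hN
    linarith
  have h5 : Real.log N / Real.log 2 ≤ 1.45 * Real.log N := by
    rw [div_le_iff₀ (by linarith)]
    nlinarith
  rw [h2] at h1
  linarith

/-- real form of `one_main` -/
theorem one_real (k B M : ℕ) (hk : 3 ≤ k) (hM : 0 < M) (hB : Squarefree B) (hMB : M.Coprime B)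
    (hBp : ∀ p : ℕ, p.Prime → p ∣ B → p ≡ 1 [MOD 2 ^ k]) (X : ℝ) (hX : (8 * M * B ^ 2 : ℝ) ^ (2 ^ (k - 1)) ≤ X) :
    X ^ ((((2 ^ (k - 1) : ℕ) : ℝ))⁻¹) / (8 * M * B ^ 2 * Real.log X) ≤
      (({n : ℕ | (n : ℝ) ≤ X ∧ Squarefree n ∧ IntSol n ∧ B ∣ n ∧
        (∀ p : ℕ, p.Prime → p ∣ n → p ≡ 1 [MOD 2 ^ k]) ∧ ∃ y, n ≡ y ^ 2 [MOD M]}.ncard : ℕ) : ℝ) := by
  set S := {n : ℕ | (n : ℝ) ≤ X ∧ Squarefree n ∧ IntSol n ∧ B ∣ n ∧
        (∀ p : ℕ, p.Prime → p ∣ n → p ≡ 1 [MOD 2 ^ k]) ∧ ∃ y, n ≡ y ^ 2 [MOD M]} with hS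
  have hB0 : 0 < B := Nat.pos_of_ne_zero hB.ne_zero
  have hM1 : (1 : ℝ) ≤ M := by exact_mod_cast hM
  have hB1 : (1 : ℝ) ≤ B := by exact_mod_cast hB0
  have hMB1 : (1 : ℝ) ≤ M * B ^ 2 := by nlinarith [one_le_pow₀ hB1 (n := 2)]
  have h8 : (8 : ℝ) ≤ 8 * M * B ^ 2 := by nlinarith
  have hK0 : (2 ^ (k - 1) : ℕ) ≠ 0 := by positivity
  have hX8 : 8 ≤ X := by
    refine le_trans ?_ hX
    calc (8 : ℝ) = 8 ^ 1 := by norm_num
      _ ≤ 8 ^ (2 ^ (k - 1)) := pow_le_pow_right₀ (by norm_num) (Nat.one_le_two_pow)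
      _ ≤ _ := pow_le_pow_left₀ (by norm_num) h8 _
  have hX0 : 0 ≤ X := by linarith
  set r := X ^ ((((2 ^ (k - 1) : ℕ) : ℝ))⁻¹) with hr
  have hr0 : 0 ≤ r := Real.rpow_nonneg hX0 _
  have hrK : r ^ (2 ^ (k - 1)) = X := Real.rpow_inv_natCast_pow hX0 hK0
  have hrge : (8 * M * B ^ 2 : ℝ) ≤ r := by
    by_contra hcon
    rw [not_le] at hcon
    have := pow_lt_pow_left₀ hcon hr0 hK0
    rw [hrK] at this
    linarith
  set N := ⌊r⌋₊ with hN
  have hNr : (N : ℝ) ≤ r := Nat.floor_le hr0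
  have hrN : r < N + 1 := Nat.lt_floor_add_one r
  have hN8 : 8 * M * B ^ 2 ≤ N := Nat.le_floor (by push_cast; exact hrge)
  have hN8' : 8 ≤ N := by
    refine le_trans ?_ hN8
    have : 1 ≤ M * B ^ 2 := Nat.mul_pos hM (by positivity)
    calc 8 = 8 * 1 := by norm_num
      _ ≤ 8 * (M * B ^ 2) := Nat.mul_le_mul_left _ this
      _ = _ := by ring
  have hSfin : S.Finite := (Set.finite_Iic ⌊X⌋₊).subset fun n hn => Nat.le_floor hn.1
  have hsub : (oneSet k B M N).ncard ≤ S.ncard := by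
    refine Set.ncard_le_ncard ?_ hSfin
    rintro n ⟨h1, h2⟩
    refine ⟨?_, h2⟩
    calc (n : ℝ) ≤ ((N ^ 2 ^ (k - 1) : ℕ) : ℝ) := by exact_mod_cast h1
      _ = (N : ℝ) ^ 2 ^ (k - 1) := by push_cast; rfl
      _ ≤ r ^ 2 ^ (k - 1) := pow_le_pow_left₀ (Nat.cast_nonneg _) hNr _
      _ = X := hrK
  have hmain := one_main k B M N hk hM hB hMB hBp
  set R := 2 * M * B ^ 2 with hR
  have hRpos : 0 < R := by positivity
  have hRr : (0 : ℝ) < R := by exact_mod_cast hRpos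
  have hRcast : (R : ℝ) = 2 * M * B ^ 2 := by rw [hR]; push_cast; ring
  have h4R : 4 * R ≤ N := by
    refine le_trans (le_of_eq ?_) hN8
    rw [hR]
    ring
  have h1 : (N : ℝ) < ((N / R : ℕ) + 1) * R := by
    have := Nat.lt_div_mul_add (a := N) hRpos
    have h2 : N < (N / R + 1) * R := by
      rw [add_mul, one_mul]
      exact this
    exact_mod_cast h2
  have h2 : (N : ℝ) / R < (N / R : ℕ) + 1 := by rwa [div_lt_iff₀ hRr]
  have h3 : (4 : ℝ) ≤ N / R := by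
    rw [le_div_iff₀ hRr]
    exact_mod_cast h4R
  have h4 : ((N / R : ℕ) : ℝ) ≤ 2 ^ (k - 2) * (Nat.log 2 N + 1) * S.ncard + 1 := by
    have h5 : N / R ≤ 2 ^ (k - 2) * (Nat.log 2 N + 1) * S.ncard + 1 :=
      hmain.trans (Nat.add_le_add_right (Nat.mul_le_mul_left _ hsub) 1)
    exact_mod_cast h5
  have hlogN := log_bound N hN8'
  have hlogr : Real.log N ≤ Real.log X / 2 ^ (k - 1) := by
    have h5 : Real.log N ≤ Real.log r := Real.log_le_log (by
      have : (8 : ℝ) ≤ N := by exact_mod_cast hN8'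
      linarith) hNr
    have h6 : Real.log r = ((((2 ^ (k - 1) : ℕ) : ℝ))⁻¹) * Real.log X := Real.log_rpow (by linarith) _
    rw [h6] at h5
    refine h5.trans (le_of_eq ?_)
    push_cast
    rw [div_eq_inv_mul]
  have hKK : (2 : ℝ) ^ (k - 1) = 2 ^ (k - 2) * 2 := by
    rw [← pow_succ]
    congr 1
    omega
  have hfac : (2 : ℝ) ^ (k - 2) * (Nat.log 2 N + 1) ≤ Real.log X := by
    have h5 : (2 : ℝ) ^ (k - 2) * (Nat.log 2 N + 1) ≤ 2 ^ (k - 2) * (2 * (Real.log X / 2 ^ (k - 1))) := by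
      refine mul_le_mul_of_nonneg_left (hlogN.trans ?_) (by positivity)
      linarith
    refine h5.trans (le_of_eq ?_)
    rw [hKK]
    field_simp
  have h7 : (N : ℝ) / (2 * R) ≤ Real.log X * S.ncard := by
    have h8 : (2 : ℝ) ^ (k - 2) * (Nat.log 2 N + 1) * S.ncard ≤ Real.log X * S.ncard :=
      mul_le_mul_of_nonneg_right hfac (Nat.cast_nonneg _)
    have h9 : (N : ℝ) / (2 * R) = (N / R) / 2 := by field_simp
    rw [h9]
    linarith
  have hlogX : 0 < Real.log X := Real.log_pos (by linarith)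
  rw [div_le_iff₀ (by positivity)]
  have h10 : r ≤ 2 * N := by
    have : (8 : ℝ) ≤ N := by exact_mod_cast hN8'
    linarith
  have h11 : (N : ℝ) ≤ Real.log X * S.ncard * (2 * R) := by
    rwa [div_le_iff₀ (by positivity)] at h7
  rw [hRcast] at h11
  calc r ≤ 2 * N := h10
    _ ≤ 2 * (Real.log X * S.ncard * (2 * (2 * M * B ^ 2))) := by linarith
    _ = S.ncard * (8 * M * B ^ 2 * Real.log X) := by ring

/-- real form of `split_main` -/
theorem split_real (c B M : ℕ) (hc : Squarefree c) (hM : 0 < M) (hB : Squarefree B) (hMB : M.Coprime B)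
    (hBp : ∀ p : ℕ, p.Prime → p ∣ B → Splits c p) (X : ℝ) (hX : (4 * c * M * B ^ 2 : ℝ) ^ 4 ≤ X) :
    X ^ (1 / 4 : ℝ) / (48 * c * M * B ^ 2 * Real.log X) ≤
      (({n : ℕ | (n : ℝ) ≤ X ∧ Squarefree n ∧ IntSol n ∧ ∃ m, n = c * m ∧ B ∣ m ∧
        (∀ p : ℕ, p.Prime → p ∣ m → Splits c p) ∧ ∃ y, m ≡ y ^ 2 [MOD 8 * M]}.ncard : ℕ) : ℝ) := by
  set S := {n : ℕ | (n : ℝ) ≤ X ∧ Squarefree n ∧ IntSol n ∧ ∃ m, n = c * m ∧ B ∣ m ∧
        (∀ p : ℕ, p.Prime → p ∣ m → Splits c p) ∧ ∃ y, m ≡ y ^ 2 [MOD 8 * M]} with hS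
  have hB0 : 0 < B := Nat.pos_of_ne_zero hB.ne_zero
  have hc0 : 0 < c := Nat.pos_of_ne_zero hc.ne_zero
  have hM1 : (1 : ℝ) ≤ M := by exact_mod_cast hM
  have hc1 : (1 : ℝ) ≤ c := by exact_mod_cast hc0
  have hB1 : (1 : ℝ) ≤ B := by exact_mod_cast hB0
  have hMB1 : (1 : ℝ) ≤ M * B ^ 2 := by nlinarith [one_le_pow₀ hB1 (n := 2)]
  have hcMB : (1 : ℝ) ≤ c * M * B ^ 2 := by nlinarith
  have h4 : (4 : ℝ) ≤ 4 * c * M * B ^ 2 := by nlinarith
  have hX8 : 256 ≤ X := by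
    refine le_trans ?_ hX
    calc (256 : ℝ) = 4 ^ 4 := by norm_num
      _ ≤ _ := pow_le_pow_left₀ (by norm_num) h4 _
  have hX0 : 0 ≤ X := by linarith
  set r := X ^ (1 / 4 : ℝ) with hr
  have hr0 : 0 ≤ r := Real.rpow_nonneg hX0 _
  have hrK : r ^ 4 = X := by
    rw [hr, ← Real.rpow_natCast, ← Real.rpow_mul hX0]
    norm_num
  have hrge : (4 * c * M * B ^ 2 : ℝ) ≤ r := by
    by_contra hcon
    rw [not_le] at hcon
    have := pow_lt_pow_left₀ hcon hr0 (by norm_num : (4 : ℕ) ≠ 0)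
    rw [hrK] at this
    linarith
  -- `N = ⌊r / (2 c)⌋`
  set N := ⌊r / (2 * c)⌋₊ with hN
  have hc2 : (0 : ℝ) < 2 * c := by linarith
  have hNr : (N : ℝ) ≤ r / (2 * c) := Nat.floor_le (by positivity)
  have hrN : r / (2 * c) < N + 1 := Nat.lt_floor_add_one _
  have hNge : 2 * M * B ^ 2 ≤ N := by
    refine Nat.le_floor ?_
    rw [le_div_iff₀ hc2]
    push_cast
    calc (2 * M * B ^ 2 : ℝ) * (2 * c) = 4 * c * M * B ^ 2 := by ring
      _ ≤ r := hrge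
  have hNrc : (N : ℝ) * (2 * c) ≤ r := by rwa [le_div_iff₀ hc2] at hNr
  set R := 2 * M * B ^ 2 with hR
  have hRpos : 0 < R := by positivity
  have hN1 : 1 ≤ N := hRpos.trans_le hNge
  have hSfin : S.Finite := (Set.finite_Iic ⌊X⌋₊).subset fun n hn => Nat.le_floor hn.1
  have hcN : ((5 * c ^ 3 * N ^ 4 : ℕ) : ℝ) ≤ X := by
    have h5 : ((N : ℝ) * (2 * c)) ^ 4 ≤ r ^ 4 := pow_le_pow_left₀ (by positivity) hNrc 4
    rw [hrK] at h5
    refine le_trans ?_ h5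
    push_cast
    have h6 : (5 : ℝ) * c ^ 3 ≤ 16 * c ^ 4 := by
      have : (0 : ℝ) ≤ c ^ 3 := by positivity
      nlinarith
    calc (5 : ℝ) * c ^ 3 * N ^ 4 ≤ 16 * c ^ 4 * N ^ 4 := mul_le_mul_of_nonneg_right h6 (by positivity)
      _ = _ := by ring
  have hsub : (splitSet c B M N).ncard ≤ S.ncard := by
    refine Set.ncard_le_ncard ?_ hSfin
    rintro n ⟨h1, h2⟩
    refine ⟨?_, h2⟩
    calc (n : ℝ) ≤ ((5 * c ^ 3 * N ^ 4 : ℕ) : ℝ) := by exact_mod_cast h1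
      _ ≤ X := hcN
  have hmain := split_main c B M N hc hM hB hMB hBp
  rw [← hR] at hmain
  have hRr : (0 : ℝ) < R := by exact_mod_cast hRpos
  have hRcast : (R : ℝ) = 2 * M * B ^ 2 := by rw [hR]; push_cast; ring
  have h1 : (N : ℝ) < ((N / R : ℕ) + 1) * R := by
    have := Nat.lt_div_mul_add (a := N) hRpos
    have h2 : N < (N / R + 1) * R := by
      rw [add_mul, one_mul]
      exact this
    exact_mod_cast h2
  have h1' : 1 ≤ N / R := (Nat.one_le_div_iff hRpos).2 hNge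
  have h2 : (N : ℝ) ≤ 2 * ((N / R : ℕ) : ℝ) * R := by
    have h3 : (1 : ℝ) ≤ ((N / R : ℕ) : ℝ) := by exact_mod_cast h1'
    nlinarith
  have h3 : ((N / R : ℕ) : ℝ) ≤ (Nat.log 2 (2 * c * N ^ 2) + 1) * S.ncard := by
    have h5 : N / R ≤ (Nat.log 2 (2 * c * N ^ 2) + 1) * S.ncard := hmain.trans (Nat.mul_le_mul_left _ hsub)
    exact_mod_cast h5
  have hlogX : 1 < Real.log X := by
    rw [Real.lt_log_iff_exp_lt (by linarith)]
    have := Real.exp_one_lt_d9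
    linarith
  have hlog : (Nat.log 2 (2 * c * N ^ 2) : ℝ) + 1 ≤ 3 * Real.log X := by
    have h5 : (Nat.log 2 (2 * c * N ^ 2) : ℝ) ≤ Real.logb (2 : ℕ) ((2 * c * N ^ 2 : ℕ) : ℝ) :=
      Real.natLog_le_logb _ 2
    have h6 : Real.logb (2 : ℕ) ((2 * c * N ^ 2 : ℕ) : ℝ) = Real.log ((2 * c * N ^ 2 : ℕ) : ℝ) / Real.log 2 := by
      rw [Real.logb]
      norm_num
    have hpos : (0 : ℝ) < ((2 * c * N ^ 2 : ℕ) : ℝ) := by
      have : 0 < 2 * c * N ^ 2 := by positivity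
      exact_mod_cast this
    have h7 : Real.log ((2 * c * N ^ 2 : ℕ) : ℝ) ≤ Real.log X := by
      refine Real.log_le_log hpos (le_trans ?_ hcN)
      have h8 : 2 * c * N ^ 2 ≤ 5 * c ^ 3 * N ^ 4 := by
        calc 2 * c * N ^ 2 ≤ 5 * c ^ 3 * N ^ 2 := by
              refine Nat.mul_le_mul_right _ ?_
              have : c ≤ c ^ 3 := Nat.le_self_pow (by norm_num) c
              omega
          _ ≤ _ := Nat.mul_le_mul_left _ (Nat.pow_le_pow_right hN1 (by norm_num))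
      exact_mod_cast h8
    have hl2 : (0.69 : ℝ) < Real.log 2 := by
      have := Real.log_two_gt_d9
      linarith
    have h9 : Real.log ((2 * c * N ^ 2 : ℕ) : ℝ) / Real.log 2 ≤ 1.45 * Real.log X := by
      rw [div_le_iff₀ (by linarith)]
      nlinarith
    rw [h6] at h5
    linarith
  have hfin : (N : ℝ) ≤ 2 * (3 * Real.log X * S.ncard) * (2 * M * B ^ 2) := by
    rw [← hRcast]
    refine h2.trans (mul_le_mul_of_nonneg_right ?_ hRr.le)
    refine mul_le_mul_of_nonneg_left (h3.trans ?_) (by norm_num)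
    exact mul_le_mul_of_nonneg_right hlog (Nat.cast_nonneg _)
  rw [div_le_iff₀ (by positivity)]
  have h10 : r ≤ 2 * N * (2 * c) := by
    rw [div_lt_iff₀ hc2] at hrN
    have : (1 : ℝ) ≤ N := by exact_mod_cast hN1
    nlinarith
  calc r ≤ 2 * N * (2 * c) := h10
    _ ≤ 2 * (2 * (3 * Real.log X * S.ncard) * (2 * M * B ^ 2)) * (2 * c) := by
        refine mul_le_mul_of_nonneg_right ?_ hc2.le
        linarith
    _ = S.ncard * (48 * c * M * B ^ 2 * Real.log X) := by ring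

end Pool.Agent.Run7.h496.CG
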