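import Pool.Agent.Run7.h496.CG.Base

/-!
Congruent numbers `c m` near `c`: `c (1 + 4 c ^ 2 t ^ 4)` is a congruent number up to squares.  (helper496)
-/

set_option autoImplicit false

namespace Pool.Agent.Run7.h496.CG

open Finset Polynomial

/-- `x ^ 2 + n y ^ 2` and `x ^ 2 - n y ^ 2` are squares, in positive integers -/
def IntSol (n : ℕ) : Prop :=
  ∃ x y z t : ℕ, 0 < x ∧ 0 < y ∧ 0 < z ∧ 0 < t ∧ x ^ 2 + n * y ^ 2 = z ^ 2 ∧ x ^ 2 = n * y ^ 2 + t ^ 2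

/-- the primes which split completely in the field of `√-1` and `√c`, and do not divide `2 c` -/
def Splits (c p : ℕ) : Prop := p % 4 = 1 ∧ ¬ p ∣ c ∧ IsSquare (c : ZMod p)

lemma split_sol (c t m z : ℕ) (hc : 0 < c) (ht : 0 < t) (hm : z ^ 2 * m = 1 + 4 * c ^ 2 * t ^ 4) :
    IntSol (c * m) := by
  have hz : 0 < z := by
    rcases Nat.eq_zero_or_pos z with rfl | h
    · have h1 : 0 < 1 + 4 * c ^ 2 * t ^ 4 := by positivity
      rw [← hm] at h1
      simp at h1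
    · exact h
  set D : ℤ := 1 + 4 * c ^ 2 * t ^ 4 with hD
  set E : ℤ := 1 - 4 * c ^ 2 * t ^ 4 with hE
  have hmD : (z : ℤ) ^ 2 * m = D := by
    rw [hD]
    exact_mod_cast hm
  have hcz : (0 : ℤ) < c := by exact_mod_cast hc
  have htz : (0 : ℤ) < t := by exact_mod_cast ht
  have hDpos : 0 < D := by positivity
  have hEne : E ≠ 0 := by
    intro h
    rw [hE] at h
    have h1 : (1 : ℤ) = 4 * ((c : ℤ) ^ 2 * t ^ 4) := by linarith
    generalize (c : ℤ) ^ 2 * t ^ 4 = w at h1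
    omega
  have hTne : E ^ 2 - 8 * c * D * t ^ 2 ≠ 0 := by
    intro h
    have h1 : E ^ 2 = 2 * (4 * c * D * t ^ 2) := by linarith
    have h2 : E ^ 2 = 2 * (-(4 * c ^ 2 * t ^ 4) + 8 * c ^ 4 * t ^ 8) + 1 := by
      rw [hE]
      ring
    rw [h1] at h2
    generalize 4 * (c : ℤ) * D * t ^ 2 = w₁ at h2
    generalize -(4 * (c : ℤ) ^ 2 * t ^ 4) + 8 * c ^ 4 * t ^ 8 = w₂ at h2
    omega
  refine ⟨(D ^ 2 + 16 * c ^ 2 * t ^ 4).natAbs, z * (4 * t * E.natAbs), (E ^ 2 + 8 * c * D * t ^ 2).natAbs,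
    (E ^ 2 - 8 * c * D * t ^ 2).natAbs, ?_, ?_, ?_, ?_, ?_, ?_⟩
  · exact Int.natAbs_pos.2 (by positivity)
  · have := Int.natAbs_pos.2 hEne
    positivity
  · exact Int.natAbs_pos.2 (by positivity)
  · exact Int.natAbs_pos.2 hTne
  · zify
    rw [sq_abs, sq_abs, mul_pow (z : ℤ), mul_pow (4 * (t : ℤ)), sq_abs]
    have h1 : (c : ℤ) * m * (z ^ 2 * ((4 * t) ^ 2 * E ^ 2)) = c * D * 16 * t ^ 2 * E ^ 2 := by
      rw [← hmD]
      ring
    rw [h1, hE, hD]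
    ring
  · zify
    rw [sq_abs, sq_abs, mul_pow (z : ℤ), mul_pow (4 * (t : ℤ)), sq_abs]
    have h1 : (c : ℤ) * m * (z ^ 2 * ((4 * t) ^ 2 * E ^ 2)) = c * D * 16 * t ^ 2 * E ^ 2 := by
      rw [← hmD]
      ring
    rw [h1, hE, hD]
    ring

/-- the prime factors of `1 + 4 c ^ 2 t ^ 4` split completely -/
lemma split_primes (c t p : ℕ) (hp : p.Prime) (h : p ∣ 1 + 4 * c ^ 2 * t ^ 4) : Splits c p := by
  have := Fact.mk hp
  have h0 : (1 + 4 * (c : ZMod p) ^ 2 * (t : ZMod p) ^ 4) = 0 := by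
    have := (ZMod.natCast_eq_zero_iff (1 + 4 * c ^ 2 * t ^ 4) p).2 h
    push_cast at this
    exact this
  have h2 : p ≠ 2 := by
    rintro rfl
    have h5 : 2 ∣ 4 * c ^ 2 * t ^ 4 := ⟨2 * c ^ 2 * t ^ 4, by ring⟩
    have h6 := (Nat.dvd_add_left h5).1 h
    omega
  have hodd : p % 2 = 1 := hp.eq_two_or_odd.resolve_left h2
  have hsq : IsSquare (-1 : ZMod p) := ⟨2 * c * t ^ 2, by linear_combination -h0⟩
  have h4 := ZMod.exists_sq_eq_neg_one_iff.1 hsq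
  have hpc : ¬ p ∣ c := by
    intro hc
    have h5 : p ∣ 4 * c ^ 2 * t ^ 4 := Dvd.dvd.mul_right (Dvd.dvd.mul_left (dvd_pow hc (by norm_num)) 4) _
    have h6 := (Nat.dvd_add_left h5).1 h
    exact hp.one_lt.ne' (Nat.dvd_one.1 h6)
  have hpt : ¬ p ∣ t := by
    intro hc
    have h5 : p ∣ 4 * c ^ 2 * t ^ 4 := Dvd.dvd.mul_left (dvd_pow hc (by norm_num)) _
    have h6 := (Nat.dvd_add_left h5).1 h
    exact hp.one_lt.ne' (Nat.dvd_one.1 h6)
  refine ⟨by omega, hpc, ?_⟩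
  have ht0 : (t : ZMod p) ≠ 0 := fun h5 => hpt ((ZMod.natCast_eq_zero_iff _ _).1 h5)
  have h20 : (2 : ZMod p) ≠ 0 := by
    intro h5
    have h6 : ((2 : ℕ) : ZMod p) = 0 := by exact_mod_cast h5
    have := (ZMod.natCast_eq_zero_iff 2 p).1 h6
    exact h2 ((Nat.prime_dvd_prime_iff_eq hp Nat.prime_two).1 this)
  refine ⟨(1 + 2 * c * t ^ 2) / (2 * t), ?_⟩
  field_simp
  linear_combination -h0

/-- every prime which splits completely divides some `1 + 4 c ^ 2 t ^ 4`, as a simple zero -/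
lemma split_zero (c p : ℕ) (hp : p.Prime) (h : Splits c p) :
    ∃ y : ℤ, (p : ℤ) ∣ (1 + C (4 * (c : ℤ) ^ 2) * X ^ 4 : ℤ[X]).eval y ∧
      ¬ (p : ℤ) ^ 2 ∣ (1 + C (4 * (c : ℤ) ^ 2) * X ^ 4 : ℤ[X]).eval y := by
  have := Fact.mk hp
  obtain ⟨h1, h2, b, hb⟩ := h
  have hc0 : (c : ZMod p) ≠ 0 := fun h5 => h2 ((ZMod.natCast_eq_zero_iff _ _).1 h5)
  have hb0 : b ≠ 0 := by
    rintro rfl
    exact hc0 (by rw [hb, mul_zero])
  obtain ⟨i, hi⟩ := ZMod.exists_sq_eq_neg_one_iff.2 (show p % 4 ≠ 3 by omega)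
  have h20 : (2 : ZMod p) ≠ 0 := by
    intro h5
    have h6 : ((2 : ℕ) : ZMod p) = 0 := by exact_mod_cast h5
    have h7 := (ZMod.natCast_eq_zero_iff 2 p).1 h6
    have h8 := (Nat.prime_dvd_prime_iff_eq hp Nat.prime_two).1 h7
    omega
  have hi2 : i ^ 2 = -1 := by rw [sq, ← hi]
  have h1i : (1 + i) ^ 4 = -4 := by
    have h5 : (1 + i) ^ 4 = 1 + 4 * i + 6 * i ^ 2 + 4 * i * i ^ 2 + (i ^ 2) ^ 2 := by ring
    rw [h5, hi2]
    ring
  have h4ne : (4 : ZMod p) ≠ 0 := by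
    have h5 : (4 : ZMod p) = 2 * 2 := by norm_num
    rw [h5]
    exact mul_ne_zero h20 h20
  have h1i0 : 1 + i ≠ 0 := by
    intro h5
    rw [h5] at h1i
    have h6 : (4 : ZMod p) = 0 := by linear_combination h1i
    exact h4ne h6
  set τ : ZMod p := ((1 + i) * b)⁻¹ with hτ
  have hτ0 : τ ≠ 0 := inv_ne_zero (mul_ne_zero h1i0 hb0)
  have hτ4 : 4 * (c : ZMod p) ^ 2 * τ ^ 4 = -1 := by
    rw [hτ, inv_pow, mul_pow, h1i, hb]
    have : b ^ 4 ≠ 0 := pow_ne_zero 4 hb0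
    field_simp
  obtain ⟨y, hy⟩ : ∃ y : ℤ, (y : ZMod p) = τ := ZMod.intCast_surjective τ
  refine simple_zero _ p hp y ?_ ?_
  · rw [← ZMod.intCast_zmod_eq_zero_iff_dvd]
    simp only [eval_add, eval_one, eval_mul, eval_C, eval_pow, eval_X]
    push_cast
    rw [hy, hτ4]
    ring
  · rw [← ZMod.intCast_zmod_eq_zero_iff_dvd]
    simp only [derivative_add, derivative_one, derivative_C_mul, derivative_X_pow, eval_mul,
      eval_C, eval_pow, eval_X, zero_add]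
    push_cast
    rw [hy]
    refine mul_ne_zero (mul_ne_zero h4ne (pow_ne_zero 2 hc0)) (mul_ne_zero h4ne ?_)
    exact pow_ne_zero _ hτ0

/-- the set of the squarefree congruent numbers `c m ≤ 5 c ^ 3 N ^ 4` with `B ∣ m`, all prime factors of `m` split
completely and `m` a square modulo `8 M` -/
def splitSet (c B M N : ℕ) : Set ℕ :=
  {n | n ≤ 5 * c ^ 3 * N ^ 4 ∧ Squarefree n ∧ IntSol n ∧ ∃ m, n = c * m ∧ B ∣ m ∧
    (∀ p : ℕ, p.Prime → p ∣ m → Splits c p) ∧ ∃ y, m ≡ y ^ 2 [MOD 8 * M]}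

lemma splitSet_finite (c B M N : ℕ) : (splitSet c B M N).Finite :=
  (Set.finite_Iic (5 * c ^ 3 * N ^ 4)).subset fun _ hn => hn.1

theorem split_main (c B M N : ℕ) (hc : Squarefree c) (hM : 0 < M) (hB : Squarefree B) (hMB : M.Coprime B)
    (hBp : ∀ p : ℕ, p.Prime → p ∣ B → Splits c p) :
    N / (2 * M * B ^ 2) ≤ (Nat.log 2 (2 * c * N ^ 2) + 1) * (splitSet c B M N).ncard := by
  have hc0 : 0 < c := Nat.pos_of_ne_zero hc.ne_zero
  have hB0 : 0 < B := Nat.pos_of_ne_zero hB.ne_zero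
  have h2B : Nat.Coprime 2 B := by
    refine (Nat.Prime.coprime_iff_not_dvd Nat.prime_two).2 fun h => ?_
    have := (hBp 2 Nat.prime_two h).1
    omega
  obtain ⟨x₀, hx0, hx0le, hx0r, hx0B⟩ := crt (1 + C (4 * (c : ℤ) ^ 2) * X ^ 4) B (2 * M) 0 hB (by positivity)
    (Nat.Coprime.mul_left h2B hMB) fun p hp hpB => split_zero c p hp (hBp p hp hpB)
  choose m z hz hsq using fun x : ℕ => Nat.sq_mul_squarefree (1 + 4 * c ^ 2 * x ^ 4)
  have hR : 0 < 2 * M * B ^ 2 := by positivity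
  have hxN : ∀ j < N / (2 * M * B ^ 2), x₀ + j * (2 * M * B ^ 2) ≤ N := by
    intro j hj
    calc x₀ + j * (2 * M * B ^ 2) ≤ 2 * M * B ^ 2 + j * (2 * M * B ^ 2) := by omega
      _ = (j + 1) * (2 * M * B ^ 2) := by ring
      _ ≤ N / (2 * M * B ^ 2) * (2 * M * B ^ 2) := Nat.mul_le_mul_right _ hj
      _ ≤ N := Nat.div_mul_le_self _ _
  have h1 := count (fun x => 2 * c * x ^ 2) m 1 (2 * M * B ^ 2) x₀ (N / (2 * M * B ^ 2)) (2 * c * N ^ 2) hR
    {m | c * m ∈ splitSet c B M N} ?_ ?_ ?_ ?_ ?_ ?_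
  · refine h1.trans (Nat.mul_le_mul_left _ ?_)
    refine Set.ncard_le_ncard_of_injOn (fun m => c * m) (fun a ha => ha) ?_ (splitSet_finite c B M N)
    intro a _ b _ hab
    exact Nat.eq_of_mul_eq_mul_left hc0 hab
  · refine (splitSet_finite c B M N).preimage ?_
    intro a _ b _ hab
    exact Nat.eq_of_mul_eq_mul_left hc0 hab
  · intro j _
    have : 0 < x₀ + j * (2 * M * B ^ 2) := by omega
    positivity
  · intro j hj
    exact Nat.mul_le_mul_left _ (Nat.pow_le_pow_left (hxN j hj) 2)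
  · intro x y hxy
    exact Nat.mul_lt_mul_of_pos_left (Nat.pow_lt_pow_left hxy (by norm_num)) (by positivity)
  · intro j _
    refine ⟨z (x₀ + j * (2 * M * B ^ 2)), ?_⟩
    have := hz (x₀ + j * (2 * M * B ^ 2))
    calc (2 * c * (x₀ + j * (2 * M * B ^ 2)) ^ 2) ^ 2 + 1 = 1 + 4 * c ^ 2 * (x₀ + j * (2 * M * B ^ 2)) ^ 4 := by ring
      _ = _ := by rw [← this]; ring
  · intro j hj
    set x := x₀ + j * (2 * M * B ^ 2) with hx
    have hxpos : 0 < x := by omega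
    have hxle : x ≤ N := hxN j hj
    have hV := hz x
    have hmdvd : m x ∣ 1 + 4 * c ^ 2 * x ^ 4 := ⟨z x ^ 2, by rw [← hV]; ring⟩
    have hVpos : 0 < 1 + 4 * c ^ 2 * x ^ 4 := by positivity
    have hcop : Nat.Coprime c (m x) := by
      refine Nat.Coprime.coprime_dvd_right hmdvd ?_
      have h5 : 1 + 4 * c ^ 2 * x ^ 4 = 1 + (4 * c * x ^ 4) * c := by ring
      rw [h5]
      simp
    refine ⟨?_, (Nat.squarefree_mul hcop).2 ⟨hc, hsq x⟩, split_sol c x (m x) (z x) hc0 hxpos hV, m x, rfl, ?_, ?_, ?_⟩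
    · calc c * m x ≤ c * (1 + 4 * c ^ 2 * x ^ 4) := Nat.mul_le_mul_left _ (Nat.le_of_dvd hVpos hmdvd)
        _ ≤ c * (c ^ 2 * x ^ 4 + 4 * c ^ 2 * x ^ 4) := by
            refine Nat.mul_le_mul_left _ ?_
            have : 1 ≤ c ^ 2 * x ^ 4 := Nat.one_le_iff_ne_zero.2 (by positivity)
            omega
        _ = 5 * c ^ 3 * x ^ 4 := by ring
        _ ≤ _ := Nat.mul_le_mul_left _ (Nat.pow_le_pow_left hxle 4)
    · refine dvd_squarefree_part B _ (m x) (z x) hB hV fun p hp hpB => ?_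
      have h6 := hx0B x ?_ p hp hpB
      · have h7 : ((1 + C (4 * (c : ℤ) ^ 2) * X ^ 4 : ℤ[X])).eval (x : ℤ) = ((1 + 4 * c ^ 2 * x ^ 4 : ℕ) : ℤ) := by
          simp only [eval_add, eval_one, eval_mul, eval_C, eval_pow, eval_X]
          push_cast
          ring
        rw [h7] at h6
        exact ⟨by exact_mod_cast h6.1, fun h8 => h6.2 (by exact_mod_cast h8)⟩
      · rw [hx]
        exact Nat.add_modEq_left_iff.2 ⟨j * (2 * M), by ring⟩
    · intro p hp hpm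
      exact split_primes c x p hp (hpm.trans hmdvd)
    · refine ⟨m x * z x, square_mod (8 * M) _ (m x) (z x) hV ?_⟩
      have h9 : 2 * M ∣ x := by
        have h10 : 2 * M ∣ x₀ := (Nat.modEq_zero_iff_dvd).1 hx0r
        rw [hx]
        exact dvd_add h10 ⟨j * B ^ 2, by ring⟩
      obtain ⟨u, hu⟩ := h9
      have h11 : 1 + 4 * c ^ 2 * x ^ 4 = 1 + (8 * M) * (8 * c ^ 2 * M ^ 3 * u ^ 4) := by
        rw [hu]
        ring
      rw [h11]
      exact Nat.add_modEq_left_iff.2 (Dvd.intro _ rfl)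

end Pool.Agent.Run7.h496.CG
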